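import Pool.Agent.Helper94.US.Stm

/-! Piece A2c of helper94's project: an elementary double sum estimate. -/

set_option autoImplicit false
open Finset

namespace Pool.Agent.Helper20.US

theorem ind (N M : ℕ) (c : ℝ) (hc : 0 ≤ c) :
    ∑ s ∈ range N, (if s < M then c else 0) ≤ M * c := by
  rw [← sum_filter, sum_const, nsmul_eq_mul]
  refine mul_le_mul_of_nonneg_right ?_ hc
  have h : (range N).filter (· < M) ⊆ range M := by
    intro s hs
    rw [mem_filter] at hs
    exact mem_range.2 hs.2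
  have := card_le_card h
  rw [card_range] at this
  exact_mod_cast this

theorem harm (L : ℕ) : ∑ m ∈ range L, (1 : ℝ) / ((m : ℝ) + 1) ≤ 1 + Real.log ((L : ℝ) + 1) := by
  have h := harmonic_le_one_add_log L
  have e : ((harmonic L : ℚ) : ℝ) = ∑ m ∈ range L, (1 : ℝ) / ((m : ℝ) + 1) := by
    unfold harmonic
    push_cast
    exact sum_congr rfl fun m _ => by rw [one_div]
  rw [e] at h
  refine h.trans ?_
  have : Real.log (L : ℝ) ≤ Real.log ((L : ℝ) + 1) := by
    rcases Nat.eq_zero_or_pos L with rfl | hL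
    · simp
    · exact Real.log_le_log (by exact_mod_cast hL) (by linarith)
  linarith

theorem t_A2c : Pool.Agent.Helper94.US.A2c := by
  intro C hC
  refine ⟨3 * C, by positivity, fun L => ?_⟩
  have key : ∀ r ∈ range L, ∀ t ∈ range L, ∀ s ∈ range (t + 1),
      min (C / (((r : ℝ) + 1) * ((t : ℝ) + 1))) (C / (((s : ℝ) + 1) * ((t : ℝ) + 1))) /
        ((r : ℝ) + t + 1) ≤
      C * ((if s < r + 1 then (if r < t + 1 then 1 / (((r : ℝ) + 1) * ((t : ℝ) + 1) ^ 2) else 0) else 0)
        + (if r < s then 1 / (((s : ℝ) + 1) * ((t : ℝ) + 1) ^ 2) else 0)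
        + (if t < r then 1 / (((r : ℝ) + 1) ^ 2 * ((t : ℝ) + 1)) else 0)) := by
    intro r _ t _ s _
    have r0 : (0 : ℝ) ≤ r := Nat.cast_nonneg r
    have t0 : (0 : ℝ) ≤ t := Nat.cast_nonneg t
    have s0 : (0 : ℝ) ≤ s := Nat.cast_nonneg s
    by_cases h1 : r < s
    · rw [if_pos h1]
      have a1 : min (C / (((r : ℝ) + 1) * ((t : ℝ) + 1))) (C / (((s : ℝ) + 1) * ((t : ℝ) + 1))) /
        ((r : ℝ) + t + 1) ≤ C * (1 / (((s : ℝ) + 1) * ((t : ℝ) + 1) ^ 2)) := by
        calc _ ≤ (C / (((s : ℝ) + 1) * ((t : ℝ) + 1))) / ((r : ℝ) + t + 1) :=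
              div_le_div_of_nonneg_right (min_le_right _ _) (by positivity)
          _ ≤ (C / (((s : ℝ) + 1) * ((t : ℝ) + 1))) / ((t : ℝ) + 1) :=
              div_le_div_of_nonneg_left (by positivity) (by positivity) (by linarith)
          _ = _ := by field_simp
      refine a1.trans (mul_le_mul_of_nonneg_left ?_ hC.le)
      have b1 : (0 : ℝ) ≤ (if s < r + 1 then (if r < t + 1 then 1 / (((r : ℝ) + 1) * ((t : ℝ) + 1) ^ 2) else 0) else 0) := by
        split_ifs <;> positivity
      have b2 : (0 : ℝ) ≤ (if t < r then 1 / (((r : ℝ) + 1) ^ 2 * ((t : ℝ) + 1)) else 0) := by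
        split_ifs <;> positivity
      linarith
    · have h1' : s < r + 1 := by omega
      rw [if_neg h1, if_pos h1']
      by_cases h2 : t < r
      · rw [if_pos h2, if_neg (by omega : ¬ r < t + 1)]
        calc _ ≤ (C / (((r : ℝ) + 1) * ((t : ℝ) + 1))) / ((r : ℝ) + t + 1) :=
              div_le_div_of_nonneg_right (min_le_left _ _) (by positivity)
          _ ≤ (C / (((r : ℝ) + 1) * ((t : ℝ) + 1))) / ((r : ℝ) + 1) :=
              div_le_div_of_nonneg_left (by positivity) (by positivity) (by linarith)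
          _ = _ := by field_simp; ring
      · rw [if_neg h2, if_pos (by omega : r < t + 1)]
        calc _ ≤ (C / (((r : ℝ) + 1) * ((t : ℝ) + 1))) / ((r : ℝ) + t + 1) :=
              div_le_div_of_nonneg_right (min_le_left _ _) (by positivity)
          _ ≤ (C / (((r : ℝ) + 1) * ((t : ℝ) + 1))) / ((t : ℝ) + 1) :=
              div_le_div_of_nonneg_left (by positivity) (by positivity) (by linarith)
          _ = _ := by field_simp; ring
  have s1 : ∑ r ∈ range L, ∑ t ∈ range L, ∑ s ∈ range (t + 1),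
      (if s < r + 1 then (if r < t + 1 then 1 / (((r : ℝ) + 1) * ((t : ℝ) + 1) ^ 2) else 0) else 0)
      ≤ ∑ m ∈ range L, (1 : ℝ) / ((m : ℝ) + 1) := by
    rw [sum_comm]
    refine sum_le_sum fun t _ => ?_
    calc ∑ r ∈ range L, ∑ s ∈ range (t + 1),
          (if s < r + 1 then (if r < t + 1 then 1 / (((r : ℝ) + 1) * ((t : ℝ) + 1) ^ 2) else 0) else 0)
        ≤ ∑ r ∈ range L, (if r < t + 1 then 1 / ((t : ℝ) + 1) ^ 2 else 0) := by
          refine sum_le_sum fun r _ => ?_
          refine (ind _ _ _ (by split_ifs <;> positivity)).trans ?_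
          split_ifs
          · apply le_of_eq
            push_cast
            field_simp
          · simp
      _ ≤ ((t + 1 : ℕ) : ℝ) * (1 / ((t : ℝ) + 1) ^ 2) := ind _ _ _ (by positivity)
      _ = 1 / ((t : ℝ) + 1) := by push_cast; field_simp
  have s2 : ∑ r ∈ range L, ∑ t ∈ range L, ∑ s ∈ range (t + 1),
      (if r < s then 1 / (((s : ℝ) + 1) * ((t : ℝ) + 1) ^ 2) else 0)
      ≤ ∑ m ∈ range L, (1 : ℝ) / ((m : ℝ) + 1) := by
    rw [sum_comm]
    refine sum_le_sum fun t _ => ?_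
    rw [sum_comm]
    calc ∑ s ∈ range (t + 1), ∑ r ∈ range L,
          (if r < s then 1 / (((s : ℝ) + 1) * ((t : ℝ) + 1) ^ 2) else 0)
        ≤ ∑ _s ∈ range (t + 1), 1 / ((t : ℝ) + 1) ^ 2 := by
          refine sum_le_sum fun s _ => ?_
          refine (ind _ _ _ (by positivity)).trans ?_
          have s0 : (0 : ℝ) ≤ s := Nat.cast_nonneg s
          rw [mul_one_div, div_le_div_iff₀ (by positivity) (by positivity)]
          nlinarith [sq_nonneg ((t : ℝ) + 1)]
      _ = 1 / ((t : ℝ) + 1) := by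
          rw [sum_const, card_range, nsmul_eq_mul]
          push_cast
          field_simp
  have s3 : ∑ r ∈ range L, ∑ t ∈ range L, ∑ s ∈ range (t + 1),
      (if t < r then 1 / (((r : ℝ) + 1) ^ 2 * ((t : ℝ) + 1)) else 0)
      ≤ ∑ m ∈ range L, (1 : ℝ) / ((m : ℝ) + 1) := by
    refine sum_le_sum fun r _ => ?_
    calc ∑ t ∈ range L, ∑ s ∈ range (t + 1),
          (if t < r then 1 / (((r : ℝ) + 1) ^ 2 * ((t : ℝ) + 1)) else 0)
        = ∑ t ∈ range L, (if t < r then 1 / ((r : ℝ) + 1) ^ 2 else 0) := by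
          refine sum_congr rfl fun t _ => ?_
          rw [sum_const, card_range, nsmul_eq_mul]
          split_ifs
          · push_cast
            field_simp
          · simp
      _ ≤ (r : ℝ) * (1 / ((r : ℝ) + 1) ^ 2) := ind _ _ _ (by positivity)
      _ ≤ 1 / ((r : ℝ) + 1) := by
          have r0 : (0 : ℝ) ≤ r := Nat.cast_nonneg r
          rw [mul_one_div, div_le_div_iff₀ (by positivity) (by positivity)]
          nlinarith
  have hL := harm L
  calc _ ≤ ∑ r ∈ range L, ∑ t ∈ range L, ∑ s ∈ range (t + 1),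
      C * ((if s < r + 1 then (if r < t + 1 then 1 / (((r : ℝ) + 1) * ((t : ℝ) + 1) ^ 2) else 0) else 0)
        + (if r < s then 1 / (((s : ℝ) + 1) * ((t : ℝ) + 1) ^ 2) else 0)
        + (if t < r then 1 / (((r : ℝ) + 1) ^ 2 * ((t : ℝ) + 1)) else 0)) :=
        sum_le_sum fun r hr => sum_le_sum fun t ht => sum_le_sum fun s hs => key r hr t ht s hs
    _ = C * (∑ r ∈ range L, ∑ t ∈ range L, ∑ s ∈ range (t + 1),
      (if s < r + 1 then (if r < t + 1 then 1 / (((r : ℝ) + 1) * ((t : ℝ) + 1) ^ 2) else 0) else 0)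
      + ∑ r ∈ range L, ∑ t ∈ range L, ∑ s ∈ range (t + 1),
      (if r < s then 1 / (((s : ℝ) + 1) * ((t : ℝ) + 1) ^ 2) else 0)
      + ∑ r ∈ range L, ∑ t ∈ range L, ∑ s ∈ range (t + 1),
      (if t < r then 1 / (((r : ℝ) + 1) ^ 2 * ((t : ℝ) + 1)) else 0)) := by
        simp only [← mul_sum, sum_add_distrib]
    _ ≤ C * (3 * (1 + Real.log ((L : ℝ) + 1))) := mul_le_mul_of_nonneg_left (by linarith) hC.le
    _ = 3 * C * (1 + Real.log ((L : ℝ) + 1)) := by ring

end Pool.Agent.Helper20.US
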